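import Pool.Agent.Helper46.KG.Defs

/-! Packet KG-E: a group of order `p^(2r)` with a central subgroup of order `p` has a good element
outside of it. -/

set_option autoImplicit false

namespace Helper36.KG

universe u

open scoped commutatorElement
open Helper46.KG

section comm

variable {Q : Type u} [Group Q]

theorem comm_mul_right {x y y' : Q} (h : ⁅x, y'⁆ ∈ Subgroup.center Q) :
    ⁅x, y * y'⁆ = ⁅x, y⁆ * ⁅x, y'⁆ := by
  have h1 : y * ⁅x, y'⁆ = ⁅x, y'⁆ * y := Subgroup.mem_center_iff.1 h y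
  calc ⁅x, y * y'⁆ = ⁅x, y⁆ * (y * ⁅x, y'⁆) * y⁻¹ := by
        simp only [commutatorElement_def]; group
    _ = ⁅x, y⁆ * ⁅x, y'⁆ := by rw [h1]; group

theorem comm_mul_left {x w y : Q} (h : ⁅w, y⁆ ∈ Subgroup.center Q) :
    ⁅x * w, y⁆ = ⁅w, y⁆ * ⁅x, y⁆ := by
  have h1 : x * ⁅w, y⁆ = ⁅w, y⁆ * x := Subgroup.mem_center_iff.1 h x
  calc ⁅x * w, y⁆ = (x * ⁅w, y⁆) * (y * x⁻¹ * y⁻¹) := by
        simp only [commutatorElement_def]; group
    _ = ⁅w, y⁆ * ⁅x, y⁆ := by rw [h1]; simp only [commutatorElement_def]; group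

theorem comm_pow_right {x y : Q} (h : ⁅x, y⁆ ∈ Subgroup.center Q) (n : ℕ) :
    ⁅x, y ^ n⁆ = ⁅x, y⁆ ^ n := by
  induction n with
  | zero => simp
  | succ n ih => rw [pow_succ, comm_mul_right h, ih, pow_succ]

theorem comm_pow_left {w y : Q} (h : ⁅w, y⁆ ∈ Subgroup.center Q) (n : ℕ) :
    ⁅w ^ n, y⁆ = ⁅w, y⁆ ^ n := by
  induction n with
  | zero => simp
  | succ n ih => rw [pow_succ, comm_mul_left h, ih, pow_succ']

end comm

/-- In a finite cyclic group the elements with `z^p = 1` are the powers of any nontrivial one. -/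
theorem cyclic_pow {Z : Type u} [Group Z] [Finite Z] [IsCyclic Z] {p : ℕ} (hp : p.Prime)
    {a b : Z} (ha : a ^ p = 1) (ha1 : a ≠ 1) (hb : b ^ p = 1) : ∃ j : ℕ, a ^ j = b := by
  classical
  have := Fintype.ofFinite Z
  have hord : orderOf a = p := orderOf_eq_prime ha ha1 (hp := ⟨hp⟩)
  have h1 : (Finset.univ.filter fun z : Z => z ^ p = 1).card ≤ p :=
    IsCyclic.card_pow_eq_one_le hp.pos
  have h2 : (Finset.range p).image (fun j => a ^ j) ⊆ Finset.univ.filter fun z : Z => z ^ p = 1 := by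
    intro z hz
    obtain ⟨j, _, rfl⟩ := Finset.mem_image.1 hz
    rw [Finset.mem_filter]
    refine ⟨Finset.mem_univ _, ?_⟩
    rw [← pow_mul, mul_comm, pow_mul, ha, one_pow]
  have h3 : ((Finset.range p).image (fun j => a ^ j)).card = p := by
    rw [Finset.card_image_of_injOn, Finset.card_range]
    rw [← hord, Finset.coe_range]
    exact pow_injOn_Iio_orderOf
  have h4 := Finset.eq_of_subset_of_card_le h2 (by rw [h3]; exact h1)
  have h5 : b ∈ (Finset.range p).image (fun j => a ^ j) := by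
    rw [h4, Finset.mem_filter]
    exact ⟨Finset.mem_univ _, hb⟩
  obtain ⟨j, _, hj⟩ := Finset.mem_image.1 h5
  exact ⟨j, hj⟩

theorem cyclic_pow_sub {Q : Type u} [Group Q] [Finite Q] {Z : Subgroup Q} (hZ : IsCyclic Z)
    {p : ℕ} (hp : p.Prime) {a b : Q} (haZ : a ∈ Z) (hbZ : b ∈ Z)
    (ha : a ^ p = 1) (ha1 : a ≠ 1) (hb : b ^ p = 1) : ∃ j : ℕ, b * a ^ j = 1 := by
  obtain ⟨j, hj⟩ := cyclic_pow (Z := Z) hp (a := ⟨a, haZ⟩) (b := ⟨b, hbZ⟩⁻¹)
    (Subtype.ext ha) (fun h => ha1 (congrArg Subtype.val h))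
    (by rw [inv_pow, inv_eq_one]; exact Subtype.ext hb)
  refine ⟨j, ?_⟩
  have h1 : a ^ j = b⁻¹ := congrArg Subtype.val hj
  rw [h1, mul_inv_cancel]

/-- The key step. -/
theorem star (p : ℕ) (hp : p.Prime) : ∀ (N : ℕ) (Q : Type u) [Group Q] [Finite Q]
    (Z : Subgroup Q), Nat.card Q = N → IsPGroup p Q → Z ≤ Subgroup.center Q → IsCyclic Z →
    (∀ x, x ∉ Z → ∃ y, ⁅x, y⁆ ∈ Z ∧ ⁅x, y⁆ ≠ 1) → ∃ s, Z.index = p ^ (2 * s) := by
  have hpf : Fact p.Prime := ⟨hp⟩
  intro N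
  induction N using Nat.strong_induction_on with
  | _ N ih =>
  intro Q _ _ Z hN hQ hZc hcyc hyp
  by_cases htop : Z = ⊤
  · exact ⟨0, by rw [htop]; simp⟩
  have hnorm : Z.Normal := ⟨fun z hz g => by
    have h1 := Subgroup.mem_center_iff.1 (hZc hz) g
    rw [h1, mul_assoc, mul_inv_cancel, mul_one]
    exact hz⟩
  -- the element `w`
  have hnt : Nontrivial (Q ⧸ Z) := by
    rw [← not_subsingleton_iff_nontrivial]
    intro hs
    exact htop (QuotientGroup.subgroup_eq_top_of_subsingleton Z hs)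
  have hpc : IsPGroup p (Subgroup.center (Q ⧸ Z)) := (hQ.to_quotient Z).to_subgroup _
  have hcn : Nontrivial (Subgroup.center (Q ⧸ Z)) := (hQ.to_quotient Z).center_nontrivial
  obtain ⟨m, hm0, hm⟩ := (IsPGroup.nontrivial_iff_card hpc).1 hcn
  obtain ⟨w', hw'⟩ := exists_prime_orderOf_dvd_card' (G := Subgroup.center (Q ⧸ Z)) p
    (by rw [hm]; exact dvd_pow_self p (by omega))
  obtain ⟨w, hw⟩ := QuotientGroup.mk_surjective (w' : Q ⧸ Z)
  have hwZ : w ∉ Z := by
    intro h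
    have h1 : (w : Q ⧸ Z) = 1 := (QuotientGroup.eq_one_iff w).2 h
    rw [hw] at h1
    have h2 : w' = 1 := Subtype.ext h1
    rw [h2, orderOf_one] at hw'
    exact hp.one_lt.ne hw'
  have hwp : w ^ p ∈ Z := by
    rw [← QuotientGroup.eq_one_iff, QuotientGroup.mk_pow, hw, ← Subgroup.coe_pow, ← hw',
      pow_orderOf_eq_one, Subgroup.coe_one]
  have hwc : ∀ y : Q, ⁅w, y⁆ ∈ Z := by
    intro y
    rw [← QuotientGroup.eq_one_iff, commutatorElement_def]
    have h1 : (y : Q ⧸ Z) * (w : Q ⧸ Z) = (w : Q ⧸ Z) * (y : Q ⧸ Z) := by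
      rw [hw]
      exact Subgroup.mem_center_iff.1 w'.2 _
    simp only [QuotientGroup.mk_mul, QuotientGroup.mk_inv]
    rw [← h1, mul_assoc, mul_assoc, ← mul_assoc (w : Q ⧸ Z), mul_inv_cancel, one_mul,
      mul_inv_cancel]
  -- the homomorphism `y ↦ ⁅w, y⁆`
  let f : Q →* Q :=
    { toFun := fun y => ⁅w, y⁆
      map_one' := by simp
      map_mul' := fun y y' => comm_mul_right (hZc (hwc y')) }
  have hf : ∀ y : Q, f y = ⁅w, y⁆ := fun y => rfl
  have hfp : ∀ y : Q, (⁅w, y⁆ : Q) ^ p = 1 := by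
    intro y
    rw [← comm_pow_left (hZc (hwc y)), commutatorElement_eq_one_iff_mul_comm]
    exact (Subgroup.mem_center_iff.1 (hZc hwp) y).symm
  obtain ⟨y₀, _, hy₀⟩ := hyp w hwZ
  set C := f.ker with hCdef
  have hC : ∀ y : Q, y ∈ C ↔ ⁅w, y⁆ = 1 := fun y => by rw [hCdef, MonoidHom.mem_ker, hf]
  have hrange : f.range = Subgroup.zpowers ⁅w, y₀⁆ := by
    apply le_antisymm
    · rintro _ ⟨y, rfl⟩
      obtain ⟨j, hj⟩ := cyclic_pow_sub hcyc hp (hwc y₀) (hwc y) (hfp y₀) hy₀ (hfp y)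
      rw [hf, eq_inv_of_mul_eq_one_left hj]
      exact Subgroup.inv_mem _ (Subgroup.pow_mem _ (Subgroup.mem_zpowers _) _)
    · rw [Subgroup.zpowers_le]
      exact ⟨y₀, rfl⟩
  have hCindex : C.index = p := by
    rw [hCdef, Subgroup.index_ker, hrange, Nat.card_zpowers]
    exact orderOf_eq_prime (hfp y₀) hy₀
  -- `Z₁`
  set Z₁ := Z ⊔ Subgroup.zpowers w with hZ₁
  have hwC : w ∈ C := by rw [hC]; simp
  have hZC : Z ≤ C := fun z hz => by
    rw [hC, commutatorElement_eq_one_iff_mul_comm]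
    exact Subgroup.mem_center_iff.1 (hZc hz) w
  have hZ₁C : Z₁ ≤ C := sup_le hZC (by rw [Subgroup.zpowers_le]; exact hwC)
  have hrel : Z.relIndex Z₁ = p := by
    have h1 := Subgroup.relIndex_ker Z₁ (QuotientGroup.mk' Z)
    rw [QuotientGroup.ker_mk'] at h1
    rw [h1, hZ₁, Subgroup.map_sup]
    have h2 : Z.map (QuotientGroup.mk' Z) = ⊥ := by
      rw [Subgroup.map_eq_bot_iff, QuotientGroup.ker_mk']
    rw [h2, bot_sup_eq, MonoidHom.map_zpowers, Nat.card_zpowers]
    refine orderOf_eq_prime ?_ ?_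
    · rw [← map_pow]
      exact (QuotientGroup.eq_one_iff _).2 hwp
    · intro h
      exact hwZ ((QuotientGroup.eq_one_iff _).1 h)
  have hindex : Z.index = p * (Z₁.subgroupOf C).index * p := by
    have h1 := Subgroup.relIndex_mul_relIndex Z Z₁ C le_sup_left hZ₁C
    have h2 := Subgroup.relIndex_mul_index hZC
    rw [← h2, ← h1, hrel, hCindex]
    rfl
  -- the claim
  have hclaim : ∀ x, x ∈ C → x ∉ Z₁ → ∃ y, y ∈ C ∧ ⁅x, y⁆ ∈ Z ∧ ⁅x, y⁆ ≠ 1 := by
    intro x hx hxZ₁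
    by_contra hcon
    push Not at hcon
    have hxZ : x ∉ Z := fun h => hxZ₁ (le_sup_left (a := Z) h)
    obtain ⟨y₁, hy₁Z, hy₁⟩ := hyp x hxZ
    have hy₁w : ⁅w, y₁⁆ ≠ 1 := fun h => hy₁ (hcon y₁ ((hC _).2 h) hy₁Z)
    have hxp : ⁅x, y₁⁆ ^ p = 1 := by
      rw [← comm_pow_right (hZc hy₁Z)]
      refine hcon _ ?_ ?_
      · rw [hC, comm_pow_right (hZc (hwc y₁)), hfp]
      · rw [comm_pow_right (hZc hy₁Z)]
        exact Subgroup.pow_mem _ hy₁Z _
    obtain ⟨k, hk⟩ := cyclic_pow_sub hcyc hp (hwc y₁) hy₁Z (hfp y₁) hy₁w hxp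
    have hx'Z : x * w ^ k ∉ Z := by
      intro h
      apply hxZ₁
      have h1 : x = (x * w ^ k) * (w ^ k)⁻¹ := by group
      rw [h1]
      exact Subgroup.mul_mem _ (le_sup_left (a := Z) h)
        (Subgroup.inv_mem _ (Subgroup.pow_mem _ (le_sup_right (a := Z) (Subgroup.mem_zpowers w)) _))
    obtain ⟨y, hyZ, hy1⟩ := hyp _ hx'Z
    have hwk : ∀ y : Q, ⁅w ^ k, y⁆ = ⁅w, y⁆ ^ k := fun y => comm_pow_left (hZc (hwc y)) k
    have hexp : ⁅x * w ^ k, y⁆ = ⁅w, y⁆ ^ k * ⁅x, y⁆ := by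
      rw [comm_mul_left, hwk]
      rw [hwk]
      exact Subgroup.pow_mem _ (hZc (hwc y)) _
    rw [hexp] at hyZ hy1
    have hxy : ⁅x, y⁆ ∈ Z := by
      have h1 := Subgroup.mul_mem _ (Subgroup.inv_mem _ (Subgroup.pow_mem _ (hwc y) k)) hyZ
      rwa [inv_mul_cancel_left] at h1
    obtain ⟨j, hj⟩ := cyclic_pow_sub hcyc hp (hwc y₁) (hwc y) (hfp y₁) hy₁w (hfp y)
    have hyj : y * y₁ ^ j ∈ C := by
      rw [hC, comm_mul_right, comm_pow_right (hZc (hwc y₁)), hj]
      rw [comm_pow_right (hZc (hwc y₁))]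
      exact Subgroup.pow_mem _ (hZc (hwc y₁)) _
    have hxyj : ⁅x, y * y₁ ^ j⁆ = ⁅x, y⁆ * ⁅x, y₁⁆ ^ j := by
      rw [comm_mul_right, comm_pow_right (hZc hy₁Z)]
      rw [comm_pow_right (hZc hy₁Z)]
      exact Subgroup.pow_mem _ (hZc hy₁Z) _
    have hone : ⁅x, y⁆ * ⁅x, y₁⁆ ^ j = 1 := by
      rw [← hxyj]
      refine hcon _ hyj ?_
      rw [hxyj]
      exact Subgroup.mul_mem _ hxy (Subgroup.pow_mem _ hy₁Z _)
    apply hy1
    -- compute in the centre
    have e1 : ⁅w, y⁆ = (⁅w, y₁⁆ ^ j)⁻¹ := eq_inv_of_mul_eq_one_left hj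
    have e2 : ⁅x, y⁆ = (⁅x, y₁⁆ ^ j)⁻¹ := eq_inv_of_mul_eq_one_left hone
    have e3 : ⁅x, y₁⁆ = (⁅w, y₁⁆ ^ k)⁻¹ := eq_inv_of_mul_eq_one_left hk
    rw [e1, e2, e3]
    set a := ⁅w, y₁⁆
    rw [inv_pow, inv_pow, inv_inv, ← pow_mul, ← pow_mul, mul_comm j k, inv_mul_cancel]
  -- `C` is smaller
  have hcardC : Nat.card C < N := by
    have h1 := C.card_mul_index
    rw [hCindex, hN] at h1
    rw [← h1]
    have h2 : 0 < Nat.card C := Nat.card_pos
    exact lt_mul_of_one_lt_right h2 hp.one_lt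
  have hCp : IsPGroup p C := hQ.to_subgroup C
  by_cases hcase : ∃ t ∈ Z, w ^ p = t ^ p
  · -- Case 1
    obtain ⟨t, htZ, htp⟩ := hcase
    set v := w * t⁻¹ with hv
    have htc : ∀ g, g * t = t * g := fun g => Subgroup.mem_center_iff.1 (hZc htZ) g
    have hvp : v ^ p = 1 := by
      have hcomm : Commute w t⁻¹ := (show Commute w t from htc w).inv_right
      rw [hv, hcomm.mul_pow, htp, inv_pow, mul_inv_cancel]
    have hvC : v ∈ C := Subgroup.mul_mem _ hwC (Subgroup.inv_mem _ (hZC htZ))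
    have hvZ : v ∉ Z := by
      intro h
      apply hwZ
      have h1 : w = v * t := by rw [hv]; group
      rw [h1]
      exact Subgroup.mul_mem _ h htZ
    have hvcomm : ∀ y, y ∈ C → y * v = v * y := by
      intro y hy
      have h1 : w * y = y * w := commutatorElement_eq_one_iff_mul_comm.1 ((hC y).1 hy)
      have h2 : y * t⁻¹ = t⁻¹ * y := (show Commute y t from htc y).inv_right
      rw [hv, ← mul_assoc, ← h1, mul_assoc, h2, ← mul_assoc]
    have hZ₁v : Z₁ = Z ⊔ Subgroup.zpowers v := by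
      apply le_antisymm
      · refine sup_le le_sup_left ?_
        rw [Subgroup.zpowers_le]
        have h1 : w = v * t := by rw [hv]; group
        rw [h1]
        exact Subgroup.mul_mem _ (le_sup_right (a := Z) (Subgroup.mem_zpowers v))
          (le_sup_left (a := Z) htZ)
      · refine sup_le le_sup_left ?_
        rw [Subgroup.zpowers_le]
        exact Subgroup.mul_mem _ (le_sup_right (a := Z) (Subgroup.mem_zpowers w))
          (Subgroup.inv_mem _ (le_sup_left (a := Z) htZ))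
    -- `K`
    set vC : C := ⟨v, hvC⟩ with hvCdef
    set K : Subgroup C := Subgroup.zpowers vC with hK
    have hKc : K ≤ Subgroup.center C := by
      rw [hK, Subgroup.zpowers_le, Subgroup.mem_center_iff]
      intro g
      exact Subtype.ext (hvcomm g g.2)
    have hKn : K.Normal := ⟨fun z hz g => by
      have h1 := Subgroup.mem_center_iff.1 (hKc hz) g
      rw [h1, mul_assoc, mul_inv_cancel, mul_one]
      exact hz⟩
    have hKZ : ∀ z : C, (z : Q) ∈ Z → z ∈ K → z = 1 := by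
      intro z hz hzK
      obtain ⟨i, hi⟩ := Subgroup.mem_zpowers_iff.1 hzK
      -- `v^i ∈ Z`
      have h1 : v ^ i ∈ Z := by
        have h2 : ((vC ^ i : C) : Q) = v ^ i := rfl
        rw [← h2, hi]; exact hz
      by_contra hz1
      have h3 : ¬ (p : ℤ) ∣ i := by
        rintro ⟨l, hl⟩
        apply hz1
        rw [← hi]
        apply Subtype.ext
        show v ^ i = 1
        rw [hl, zpow_mul, zpow_natCast, hvp, one_zpow]
      have h4 : IsCoprime i (p : ℤ) :=
        ((Nat.prime_iff_prime_int.1 hp).coprime_iff_not_dvd.2 h3).symm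
      obtain ⟨α, β, hαβ⟩ := h4
      apply hvZ
      have h5 : v = (v ^ i) ^ α * (v ^ (p : ℤ)) ^ β := by
        rw [← zpow_mul, ← zpow_mul, ← zpow_add, mul_comm i α, mul_comm (p : ℤ) β, hαβ, zpow_one]
      rw [h5, zpow_natCast, hvp, one_zpow, mul_one]
      exact Subgroup.zpow_mem _ h1 _
    set Z₁C := Z₁.subgroupOf C with hZ₁C'
    have hKZ₁ : K ≤ Z₁C := by
      rw [hK, Subgroup.zpowers_le, hZ₁C', Subgroup.mem_subgroupOf, hZ₁v]
      exact le_sup_right (a := Z) (Subgroup.mem_zpowers v)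
    set π := QuotientGroup.mk' K with hπ
    have hπs : Function.Surjective π := QuotientGroup.mk'_surjective K
    have hmapeq : (Z₁C.map π).index = Z₁C.index :=
      Subgroup.index_map_eq _ hπs (by rw [hπ, QuotientGroup.ker_mk']; exact hKZ₁)
    -- elements of `Z₁` modulo `K` come from `Z`
    have hZmap : Z₁C.map π = (Z.subgroupOf C).map π := by
      apply le_antisymm
      · rintro _ ⟨z, hz, rfl⟩
        have hz' : (z : Q) ∈ Z ⊔ Subgroup.zpowers v := by
          have : (z : Q) ∈ Z₁ := hz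
          rwa [hZ₁v] at this
        obtain ⟨a, haZ, b, hb, hab⟩ := Subgroup.mem_sup_of_normal_left.1 hz'
        have hbC : b ∈ C := by
          obtain ⟨i, hi⟩ := Subgroup.mem_zpowers_iff.1 hb
          rw [← hi]
          exact Subgroup.zpow_mem _ hvC _
        refine ⟨⟨a, hZC haZ⟩, haZ, ?_⟩
        have h1 : z = ⟨a, hZC haZ⟩ * ⟨b, hbC⟩ := Subtype.ext hab.symm
        have h2 : π ⟨b, hbC⟩ = 1 := by
          refine (QuotientGroup.eq_one_iff _).2 ?_
          obtain ⟨i, hi⟩ := Subgroup.mem_zpowers_iff.1 hb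
          rw [hK]
          exact Subgroup.mem_zpowers_iff.2 ⟨i, Subtype.ext hi⟩
        rw [h1, map_mul, h2, mul_one]
      · exact Subgroup.map_mono (fun z hz => le_sup_left (a := Z) hz)
    have hcyc' : IsCyclic (Z₁C.map π) := by
      rw [hZmap]
      let g : Z →* (Z.subgroupOf C).map π :=
        { toFun := fun z => ⟨π ⟨z, hZC z.2⟩, ⟨⟨z, hZC z.2⟩, z.2, rfl⟩⟩
          map_one' := Subtype.ext (map_one π)
          map_mul' := fun a b => Subtype.ext (map_mul π ⟨a, hZC a.2⟩ ⟨b, hZC b.2⟩) }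
      refine isCyclic_of_surjective g ?_
      rintro ⟨_, z, hz, rfl⟩
      exact ⟨⟨z, hz⟩, rfl⟩
    have hcard' : Nat.card (C ⧸ K) < N := by
      refine lt_of_le_of_lt ?_ hcardC
      exact Nat.card_le_card_of_surjective _ hπs
    have hcenter' : Z₁C.map π ≤ Subgroup.center (C ⧸ K) := by
      rw [hZmap]
      rintro _ ⟨z, hz, rfl⟩
      rw [Subgroup.mem_center_iff]
      intro g
      obtain ⟨g, rfl⟩ := hπs g
      rw [← map_mul, ← map_mul]
      congr 1
      exact Subtype.ext (Subgroup.mem_center_iff.1 (hZc hz) g)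
    obtain ⟨s, hs⟩ := ih _ hcard' (C ⧸ K) (Z₁C.map π) rfl (hCp.to_quotient K) hcenter' hcyc' (by
      intro x' hx'
      obtain ⟨x, rfl⟩ := hπs x'
      have hxZ₁ : (x : Q) ∉ Z₁ := fun h => hx' ⟨x, h, rfl⟩
      obtain ⟨y, hyC, hyZ, hy1⟩ := hclaim x x.2 hxZ₁
      refine ⟨π ⟨y, hyC⟩, ?_, ?_⟩
      · rw [← map_commutatorElement]
        exact ⟨_, le_sup_left (a := Z) hyZ, rfl⟩
      · rw [← map_commutatorElement]
        intro h
        have h1 : ⁅x, (⟨y, hyC⟩ : C)⁆ ∈ K := (QuotientGroup.eq_one_iff _).1 h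
        have h2 := hKZ _ hyZ h1
        exact hy1 (congrArg Subtype.val h2))
    refine ⟨s + 1, ?_⟩
    rw [hindex, ← hmapeq, hs]
    ring
  · -- Case 2
    push Not at hcase
    have hZpow : Z₁ = Subgroup.zpowers w := by
      apply le_antisymm
      · refine sup_le ?_ le_rfl
        obtain ⟨g, hg⟩ := hcyc.exists_generator
        obtain ⟨m, hm⟩ := Subgroup.mem_zpowers_iff.1 (hg ⟨w ^ p, hwp⟩)
        have hm' : (g : Q) ^ m = w ^ p := congrArg Subtype.val hm
        have h3 : ¬ (p : ℤ) ∣ m := by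
          rintro ⟨l, hl⟩
          apply hcase ((g : Q) ^ l) (Subgroup.zpow_mem _ g.2 _)
          rw [← hm', hl, mul_comm, zpow_mul, zpow_natCast]
        obtain ⟨e, he⟩ := (hQ.to_subgroup Z) g
        have hge : (g : Q) ^ (p ^ e) = 1 := congrArg Subtype.val he
        have h4 : IsCoprime m ((p : ℤ) ^ e) :=
          (((Nat.prime_iff_prime_int.1 hp).coprime_iff_not_dvd.2 h3).symm).pow_right
        obtain ⟨α, β, hαβ⟩ := h4
        have h5 : (g : Q) = (w ^ p) ^ α := by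
          have h6 : (g : Q) = ((g : Q) ^ m) ^ α * ((g : Q) ^ ((p : ℤ) ^ e)) ^ β := by
            rw [← zpow_mul, ← zpow_mul, ← zpow_add, mul_comm m α, mul_comm ((p : ℤ) ^ e) β, hαβ,
              zpow_one]
          have h7 : (g : Q) ^ ((p : ℤ) ^ e) = 1 := by
            have : ((p : ℤ) ^ e) = ((p ^ e : ℕ) : ℤ) := by push_cast; rfl
            rw [this, zpow_natCast, hge]
          rw [h7, one_zpow, mul_one, hm'] at h6
          exact h6
        intro z hz
        obtain ⟨i, hi⟩ := Subgroup.mem_zpowers_iff.1 (hg ⟨z, hz⟩)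
        have hi' : (g : Q) ^ i = z := congrArg Subtype.val hi
        rw [← hi', h5]
        exact Subgroup.zpow_mem _ (Subgroup.zpow_mem _
          (Subgroup.pow_mem _ (Subgroup.mem_zpowers w) _) _) _
      · exact le_sup_right
    have hcyc₁ : IsCyclic (Z₁.subgroupOf C) := by
      have h1 : IsCyclic Z₁ := by rw [hZpow]; infer_instance
      exact isCyclic_of_surjective (Subgroup.subgroupOfEquivOfLe hZ₁C).symm
        (Subgroup.subgroupOfEquivOfLe hZ₁C).symm.surjective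
    obtain ⟨s, hs⟩ := ih _ hcardC C (Z₁.subgroupOf C) rfl hCp (by
      intro z hz
      rw [Subgroup.mem_center_iff]
      intro g
      have hz' : (z : Q) ∈ Subgroup.zpowers w := by
        have : (z : Q) ∈ Z₁ := hz
        rwa [hZpow] at this
      obtain ⟨i, hi⟩ := Subgroup.mem_zpowers_iff.1 hz'
      apply Subtype.ext
      show (g : Q) * z = z * g
      rw [← hi]
      have h1 : Commute (w : Q) g := commutatorElement_eq_one_iff_mul_comm.1 ((hC g).1 g.2)
      exact (h1.symm.zpow_right i)) hcyc₁ (by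
      intro x hx
      obtain ⟨y, hyC, hyZ, hy1⟩ := hclaim x x.2 (fun h => hx h)
      refine ⟨⟨y, hyC⟩, ?_, ?_⟩
      · exact le_sup_left (a := Z) hyZ
      · intro h
        exact hy1 (congrArg Subtype.val h))
    refine ⟨s + 1, ?_⟩
    rw [hindex, hs]
    ring

theorem stE : StE.{u} := by
  intro Q _ _ p r Z hp hZc hZp hQ
  have hpf : Fact p.Prime := ⟨hp⟩
  by_contra hcon
  push Not at hcon
  have hPQ : IsPGroup p Q := IsPGroup.of_card hQ
  have hcyc : IsCyclic Z := isCyclic_of_prime_card hZp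
  obtain ⟨s, hs⟩ := star p hp _ Q Z rfl hPQ hZc hcyc hcon
  have h1 := Z.card_mul_index
  rw [hZp, hs, hQ, ← pow_succ'] at h1
  have h2 := Nat.pow_right_injective hp.two_le h1
  omega

end Helper36.KG
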