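import Pool.Agent.Helper46.KG.Defs

/-! Packet KG-G2: one stage, counting with Burnside's lemma. -/

set_option autoImplicit false

namespace Helper36.KG

universe u

open scoped commutatorElement
open Helper46.KG MulAction

theorem card_orbits {G X Y : Type*} [Group G] [MulAction G X] (φ : X → Y)
    (h : ∀ a b, φ a = φ b ↔ ∃ g : G, g • a = b) :
    Nat.card (Quotient (orbitRel G X)) = (Set.range φ).ncard := by
  have hrel : ∀ a b : X, (orbitRel G X) a b ↔ φ a = φ b := by
    intro a b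
    rw [orbitRel_apply, eq_comm, h]
    rfl
  let ψ : Quotient (orbitRel G X) → Y := Quotient.lift φ (fun a b hab => (hrel a b).1 hab)
  have hinj : Function.Injective ψ := by
    intro a b
    induction a using Quotient.inductionOn
    induction b using Quotient.inductionOn
    intro hab
    exact Quotient.sound ((hrel _ _).2 hab)
  have hrange : Set.range ψ = Set.range φ := by
    ext y
    constructor
    · rintro ⟨q, rfl⟩
      induction q using Quotient.inductionOn with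
      | _ a => exact ⟨a, rfl⟩
    · rintro ⟨a, rfl⟩
      exact ⟨Quotient.mk _ a, rfl⟩
  rw [Nat.card_congr (Equiv.ofInjective ψ hinj), Nat.card_coe_set_eq, hrange]

/-- Comparing the numbers of orbits on two sets. -/
theorem burnside_diff {G : Type*} [Group G] [Finite G] {X1 X0 : Type*} [Finite X1] [Finite X0]
    [MulAction G X1] [MulAction G X0] (Q : Subgroup G) (p : ℕ) (hp : 1 ≤ p)
    (h1 : ∀ g : G, Nat.card (fixedBy X0 g) ≤ Nat.card (fixedBy X1 g))
    (h2 : ∀ g ∈ Q, p * Nat.card (fixedBy X0 g) ≤ Nat.card (fixedBy X1 g)) :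
    (p - 1) * Nat.card (Quotient (orbitRel Q X0)) ≤
      Q.index * (Nat.card (Quotient (orbitRel G X1)) - Nat.card (Quotient (orbitRel G X0))) := by
  classical
  have := Fintype.ofFinite G
  have := Fintype.ofFinite X1
  have := Fintype.ofFinite X0
  have := Fintype.ofFinite Q
  have := Fintype.ofFinite (Quotient (orbitRel G X1))
  have := Fintype.ofFinite (Quotient (orbitRel G X0))
  have := Fintype.ofFinite (Quotient (orbitRel Q X0))
  have b1 := sum_card_fixedBy_eq_card_orbits_mul_card_group G X1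
  have b0 := sum_card_fixedBy_eq_card_orbits_mul_card_group G X0
  have bq := sum_card_fixedBy_eq_card_orbits_mul_card_group Q X0
  simp only [← Nat.card_eq_fintype_card] at b1 b0 bq
  set N1 := Nat.card (Quotient (orbitRel G X1))
  set N0 := Nat.card (Quotient (orbitRel G X0))
  set e := Nat.card (Quotient (orbitRel Q X0))
  have hsum : ∑ g : G, Nat.card (fixedBy X0 g) + (p - 1) * ∑ g : Q, Nat.card (fixedBy X0 g) ≤
      ∑ g : G, Nat.card (fixedBy X1 g) := by
    have e1 : (p - 1) * ∑ g : Q, Nat.card (fixedBy X0 g) =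
        ∑ g : G, if g ∈ Q then (p - 1) * Nat.card (fixedBy X0 g) else 0 := by
      rw [← Finset.sum_filter, Finset.mul_sum]
      rw [Finset.sum_subtype (p := fun g => g ∈ Q) (Finset.univ.filter fun g => g ∈ Q)
        (fun g => by simp)]
      rfl
    rw [e1, ← Finset.sum_add_distrib]
    refine Finset.sum_le_sum fun g _ => ?_
    split_ifs with hg
    · have h3 := h2 g hg
      obtain ⟨q, rfl⟩ := Nat.exists_eq_add_of_le' hp
      rw [Nat.add_sub_cancel]
      rw [add_mul, one_mul] at h3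
      omega
    · simpa using h1 g
  rw [b1, b0, bq] at hsum
  have hG : Nat.card G = Nat.card Q * Q.index := (Q.card_mul_index).symm
  rw [hG] at hsum
  have hQpos : 0 < Nat.card Q := Nat.card_pos
  have h4 : Nat.card Q * (Q.index * N0 + (p - 1) * e) ≤ Nat.card Q * (Q.index * N1) := by
    calc Nat.card Q * (Q.index * N0 + (p - 1) * e)
        = N0 * (Nat.card Q * Q.index) + (p - 1) * (e * Nat.card Q) := by ring
      _ ≤ N1 * (Nat.card Q * Q.index) := hsum
      _ = Nat.card Q * (Q.index * N1) := by ring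
  have h5 := Nat.le_of_mul_le_mul_left h4 hQpos
  rw [Nat.mul_sub]
  omega

section main

variable {G : Type u} [Group G]

/-- Good elements. -/
def Good (Q Z : Subgroup G) (t : G) : Prop :=
  t ∈ Q ∧ t ∉ Z ∧ ∀ y ∈ Q, ⁅t, y⁆ ∈ Z → ⁅t, y⁆ = 1

theorem Good.conj {Q Z : Subgroup G} [Z.Normal] (hQ : Q.Normal) {t : G} (ht : Good Q Z t)
    (g : G) : Good Q Z (g * t * g⁻¹) := by
  refine ⟨hQ.conj_mem _ ht.1 g, ?_, ?_⟩
  · intro h
    apply ht.2.1
    have := (inferInstance : Z.Normal).conj_mem _ h g⁻¹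
    have e : g⁻¹ * (g * t * g⁻¹) * g⁻¹⁻¹ = t := by group
    rwa [e] at this
  · intro y hy h
    have e : ⁅g * t * g⁻¹, y⁆ = g * ⁅t, g⁻¹ * y * g⁆ * g⁻¹ := by
      simp only [commutatorElement_def]; group
    have hy' : g⁻¹ * y * g ∈ Q := by
      have := hQ.conj_mem _ hy g⁻¹
      rwa [inv_inv] at this
    rw [e] at h ⊢
    have h' : ⁅t, g⁻¹ * y * g⁆ ∈ Z := by
      have := (inferInstance : Z.Normal).conj_mem _ h g⁻¹
      have e' : g⁻¹ * (g * ⁅t, g⁻¹ * y * g⁆ * g⁻¹) * g⁻¹⁻¹ = ⁅t, g⁻¹ * y * g⁆ := by group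
      rwa [e'] at this
    rw [ht.2.2 _ hy' h']
    group

theorem Good.mul {Q Z : Subgroup G} (hZQ : Z ≤ Q) (hc : ∀ z ∈ Z, ∀ q ∈ Q, z * q = q * z)
    {t z : G} (ht : Good Q Z t) (hz : z ∈ Z) : Good Q Z (t * z) := by
  refine ⟨Q.mul_mem ht.1 (hZQ hz), ?_, ?_⟩
  · intro h
    apply ht.2.1
    have := Z.mul_mem h (Z.inv_mem hz)
    rwa [mul_inv_cancel_right] at this
  · intro y hy h
    have e : ⁅t * z, y⁆ = ⁅t, y⁆ := by
      have h1 := hc z hz y hy
      rw [commutatorElement_def, commutatorElement_def]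
      calc t * z * y * (t * z)⁻¹ * y⁻¹ = t * (z * y) * z⁻¹ * t⁻¹ * y⁻¹ := by group
        _ = t * y * t⁻¹ * y⁻¹ := by rw [h1]; group
    rw [e] at h ⊢
    exact ht.2.2 y hy h

/-- A normal subgroup of prime order `p` is central in every normal `p`-subgroup. -/
theorem central_of_card_prime [Finite G] {p : ℕ} (hp : p.Prime) {Q Z : Subgroup G} [hZ : Z.Normal]
    (hQ : IsPGroup p Q) (hZp : Nat.card Z = p) : ∀ z ∈ Z, ∀ q ∈ Q, z * q = q * z := by
  have hpf : Fact p.Prime := ⟨hp⟩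
  let act : MulAction Q Z :=
    { smul := fun q z => ⟨(q : G) * z * (q : G)⁻¹, hZ.conj_mem _ z.2 _⟩
      one_smul := fun z => Subtype.ext (by
        show (1 : G) * z * (1 : G)⁻¹ = z
        simp)
      mul_smul := fun a b z => Subtype.ext (by
        show ((a : G) * b) * z * ((a : G) * b)⁻¹ = a * (b * z * (b : G)⁻¹) * (a : G)⁻¹
        group) }
  have hsmul : ∀ (q : Q) (z : Z), ((q • z : Z) : G) = (q : G) * z * (q : G)⁻¹ := fun _ _ => rfl
  have h1 := hQ.card_modEq_card_fixedPoints (α := Z)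
  rw [hZp] at h1
  have h2 : p ∣ Nat.card (fixedPoints Q Z) := (Nat.modEq_zero_iff_dvd).1
    (h1.symm.trans ((Nat.modEq_zero_iff_dvd).2 dvd_rfl))
  have h3 : (1 : Z) ∈ fixedPoints Q Z := by
    intro q
    apply Subtype.ext
    rw [hsmul]
    simp
  have h4 : 0 < Nat.card (fixedPoints Q Z) := by
    have : Nonempty (fixedPoints Q Z) := ⟨⟨1, h3⟩⟩
    exact Nat.card_pos
  have h5 : p ≤ Nat.card (fixedPoints Q Z) := Nat.le_of_dvd h4 h2
  have h6 : fixedPoints Q Z = Set.univ := by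
    apply Set.eq_of_subset_of_ncard_le (Set.subset_univ _)
    rw [Set.ncard_univ, hZp, ← Nat.card_coe_set_eq]
    exact h5
  intro z hz q hq
  have h7 : (⟨z, hz⟩ : Z) ∈ fixedPoints Q Z := by rw [h6]; trivial
  have h8 := congrArg Subtype.val (h7 ⟨q, hq⟩)
  rw [hsmul] at h8
  have h9 : q * z * q⁻¹ = z := h8
  calc z * q = (q * z * q⁻¹) * q := by rw [h9]
    _ = q * z := by group

/-- A normal subgroup of order `p` is contained in every normal subgroup of index prime to `p`. -/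
theorem le_of_index {p : ℕ} (hp : p.Prime) {Q Z : Subgroup G} [Q.Normal]
    (hQi : ¬ p ∣ Q.index) (hZp : Nat.card Z = p) : Z ≤ Q := by
  intro z hz
  have h1 : z ^ p = 1 := by
    have := pow_card_eq_one' (x := (⟨z, hz⟩ : Z))
    rw [hZp] at this
    exact congrArg Subtype.val this
  have h2 : z ^ Q.index ∈ Q := Q.pow_index_mem z
  have h3 : IsCoprime (p : ℤ) (Q.index : ℤ) :=
    Nat.isCoprime_iff_coprime.2 ((Nat.Prime.coprime_iff_not_dvd hp).2 hQi)
  obtain ⟨a, b, hab⟩ := h3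
  have h4 : z = (z ^ p) ^ a * (z ^ Q.index) ^ b := by
    rw [← zpow_natCast, ← zpow_natCast, ← zpow_mul, ← zpow_mul, ← zpow_add, mul_comm _ a,
      mul_comm _ b, hab, zpow_one]
  rw [h4, h1, one_zpow, one_mul]
  exact Q.zpow_mem h2 _

/-- The powers `x^j`, `0 < j < p`, of a good element are good. -/
theorem Good.pow [Finite G] {p : ℕ} (hp : p.Prime) {Q Z : Subgroup G} [Z.Normal]
    (hQ : IsPGroup p Q) {x : G} (hx : Good Q Z x) {j : ℕ} (hj : ¬ p ∣ j) : Good Q Z (x ^ j) := by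
  have hpf : Fact p.Prime := ⟨hp⟩
  -- the order of the image of `x` is a power of `p`
  obtain ⟨e, he⟩ := hQ ⟨x, hx.1⟩
  have hxe : x ^ p ^ e = 1 := congrArg Subtype.val he
  have hcop : j.Coprime (orderOf (x : G ⧸ Z)) := by
    have h1 : orderOf (x : G ⧸ Z) ∣ p ^ e := by
      rw [orderOf_dvd_iff_pow_eq_one, ← QuotientGroup.mk_pow, hxe, QuotientGroup.mk_one]
    exact Nat.Coprime.coprime_dvd_right h1
      (Nat.Coprime.pow_right _ ((Nat.Prime.coprime_iff_not_dvd hp).2 hj).symm)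
  obtain ⟨m, hm⟩ := exists_pow_eq_self_of_coprime hcop
  refine ⟨Q.pow_mem hx.1 _, ?_, ?_⟩
  · intro h
    apply hx.2.1
    rw [← QuotientGroup.eq_one_iff, ← hm, ← QuotientGroup.mk_pow,
      (QuotientGroup.eq_one_iff (x ^ j)).2 h, one_pow]
  · intro y hy h
    have h1 : Commute ((x : G ⧸ Z) ^ j) (y : G ⧸ Z) := by
      have h2 := (QuotientGroup.eq_one_iff ⁅x ^ j, y⁆).2 h
      have h3 : ((⁅x ^ j, y⁆ : G) : G ⧸ Z) = ⁅(x : G ⧸ Z) ^ j, (y : G ⧸ Z)⁆ := rfl
      rw [h3] at h2
      exact commutatorElement_eq_one_iff_mul_comm.1 h2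
    have h2 : Commute (x : G ⧸ Z) (y : G ⧸ Z) := by
      have := h1.pow_left m
      rwa [hm] at this
    have h3 : ⁅x, y⁆ ∈ Z := by
      rw [← QuotientGroup.eq_one_iff]
      have h4 : ((⁅x, y⁆ : G) : G ⧸ Z) = ⁅(x : G ⧸ Z), (y : G ⧸ Z)⁆ := rfl
      rw [h4]
      exact commutatorElement_eq_one_iff_mul_comm.2 h2
    have h4 : Commute x y := commutatorElement_eq_one_iff_mul_comm.1 (hx.2.2 y hy h3)
    exact commutatorElement_eq_one_iff_mul_comm.2 (h4.pow_left j)

/-- In a `p`-group different powers `x^i`, `x^j` (`i ≢ j` mod `p`) are not conjugate. -/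
theorem pow_conj {H : Type*} [Group H] {p : ℕ} (hp : p.Prime) {x y : H} {e f : ℕ}
    (hx : x ^ p ^ e = 1) (hx1 : x ≠ 1) (hy : y ^ p ^ f = 1) {i j : ℕ} (hj : ¬ p ∣ j)
    (h : y * x ^ j * y⁻¹ = x ^ i) : i ≡ j [MOD p] := by
  have hpf : Fact p.Prime := ⟨hp⟩
  have hdvd : orderOf x ∣ p ^ e := orderOf_dvd_iff_pow_eq_one.2 hx
  have hpo : p ∣ orderOf x := by
    obtain ⟨a, _, ha⟩ := (Nat.dvd_prime_pow hp).1 hdvd
    rw [ha]
    rcases Nat.eq_zero_or_pos a with h0 | h0
    · exfalso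
      rw [h0, pow_zero, orderOf_eq_one_iff] at ha
      exact hx1 ha
    · exact dvd_pow_self p (by omega)
  have hcop : j.Coprime (orderOf x) :=
    Nat.Coprime.coprime_dvd_right hdvd
      (Nat.Coprime.pow_right _ ((Nat.Prime.coprime_iff_not_dvd hp).2 hj).symm)
  obtain ⟨m, hm⟩ := exists_pow_eq_self_of_coprime hcop
  set u := x ^ j with hu
  set k := m * i with hk
  -- `y u y⁻¹ = u ^ k`
  have h1 : y * u * y⁻¹ = u ^ k := by
    rw [h, hk, pow_mul, hm]
  have h2 : ∀ r : ℕ, y ^ r * u * (y ^ r)⁻¹ = u ^ (k ^ r) := by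
    intro r
    induction r with
    | zero => simp
    | succ r ih =>
      have e1 : y ^ (r + 1) * u * (y ^ (r + 1))⁻¹ = y ^ r * (y * u * y⁻¹) * (y ^ r)⁻¹ := by
        rw [pow_succ]; group
      have e2 : ∀ n : ℕ, y ^ r * u ^ n * (y ^ r)⁻¹ = (y ^ r * u * (y ^ r)⁻¹) ^ n := by
        intro n
        rw [conj_pow]
      rw [e1, h1, e2 k, ih, ← pow_mul, ← pow_succ]
  have h3 := h2 (p ^ f)
  rw [hy, one_mul, inv_one, mul_one] at h3
  -- order of `u`
  have hou : orderOf u = orderOf x := hcop.symm.orderOf_pow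
  have h4 : 1 ≡ k ^ p ^ f [MOD orderOf u] := by
    rw [← pow_eq_pow_iff_modEq, pow_one]
    exact h3
  rw [hou] at h4
  have h5 : 1 ≡ k ^ p ^ f [MOD p] := h4.of_dvd hpo
  have h6 : (k : ZMod p) = 1 := by
    have h7 := (ZMod.natCast_eq_natCast_iff _ _ _).2 h5
    push_cast at h7
    rw [ZMod.pow_card_pow] at h7
    exact h7.symm
  have h7 : j * k ≡ i [MOD orderOf x] := by
    rw [← pow_eq_pow_iff_modEq, pow_mul, ← hu, ← h1, h]
  have h8 := (ZMod.natCast_eq_natCast_iff _ _ _).2 (h7.of_dvd hpo)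
  rw [Nat.cast_mul, h6, mul_one] at h8
  exact (ZMod.natCast_eq_natCast_iff _ _ _).1 h8.symm

theorem stG2 : StG2.{u} := by
  intro G _ _ p Q Z hZn hp hQ hQi hcomm hZp x hxQ hxZ hxgood
  have hpf : Fact p.Prime := ⟨hp⟩
  have hQn : Q.Normal := ⟨fun q hq g => by
    have h1 : ⁅g, q⁆ ∈ Q := hcomm (Subgroup.commutator_mem_commutator (Subgroup.mem_top _)
      (Subgroup.mem_top _))
    have h2 := Q.mul_mem h1 hq
    have e : ⁅g, q⁆ * q = g * q * g⁻¹ := by rw [commutatorElement_def]; group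
    rwa [e] at h2⟩
  have hZQ : Z ≤ Q := le_of_index hp hQi hZp
  have hZc := central_of_card_prime hp hQ hZp
  have hxG : Good Q Z x := ⟨hxQ, hxZ, hxgood⟩
  -- the sets
  set X1 := {t : G // Good Q Z t} with hX1
  set X0 := {t : G ⧸ Z // ∃ s, Good Q Z s ∧ (s : G ⧸ Z) = t} with hX0
  let act1 : MulAction G X1 :=
    { smul := fun g t => ⟨g * t.1 * g⁻¹, t.2.conj hQn g⟩
      one_smul := fun t => Subtype.ext (by
        show (1 : G) * t.1 * (1 : G)⁻¹ = t.1
        simp)
      mul_smul := fun a b t => Subtype.ext (by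
        show (a * b) * t.1 * (a * b)⁻¹ = a * (b * t.1 * b⁻¹) * a⁻¹
        group) }
  let act0 : MulAction G X0 :=
    { smul := fun g t => ⟨(g : G ⧸ Z) * t.1 * (g : G ⧸ Z)⁻¹, by
        obtain ⟨s, hs, hst⟩ := t.2
        exact ⟨g * s * g⁻¹, hs.conj hQn g, by rw [← hst]; rfl⟩⟩
      one_smul := fun t => Subtype.ext (by
        show (((1 : G) : G ⧸ Z)) * t.1 * (((1 : G) : G ⧸ Z))⁻¹ = t.1
        rw [QuotientGroup.mk_one]
        simp)
      mul_smul := fun a b t => Subtype.ext (by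
        show ((a * b : G) : G ⧸ Z) * t.1 * ((a * b : G) : G ⧸ Z)⁻¹ =
          (a : G ⧸ Z) * ((b : G ⧸ Z) * t.1 * (b : G ⧸ Z)⁻¹) * (a : G ⧸ Z)⁻¹
        rw [QuotientGroup.mk_mul]
        group) }
  have hs1 : ∀ (g : G) (t : X1), (g • t : X1).1 = g * t.1 * g⁻¹ := fun _ _ => rfl
  have hs0 : ∀ (g : G) (t : X0), (g • t : X0).1 = (g : G ⧸ Z) * t.1 * (g : G ⧸ Z)⁻¹ :=
    fun _ _ => rfl
  -- a fixed point of `g` on `X0` has a lift fixed by `g`
  have hlift : ∀ (g : G) (t : X0), t ∈ fixedBy X0 g → ∃ s : X1, (s.1 : G ⧸ Z) = t.1 ∧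
      s ∈ fixedBy X1 g := by
    intro g t ht
    obtain ⟨s, hs, hst⟩ := t.2
    have hδ : s⁻¹ * (g * s * g⁻¹) ∈ Z := by
      rw [← QuotientGroup.eq]
      have h1 := congrArg Subtype.val (show g • t = t from ht)
      rw [hs0, ← hst] at h1
      rw [← h1]
      rfl
    set δ := s⁻¹ * (g * s * g⁻¹) with hδdef
    have hgs : g * s * g⁻¹ = s * δ := by rw [hδdef]; group
    -- commutativity of `Z`
    have hZcomm : ∀ a ∈ Z, ∀ b ∈ Z, a * b = b * a := fun a ha b hb => hZc a ha b (hZQ hb)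
    have hdvd : Nat.card (Z ⊓ Subgroup.centralizer {g} : Subgroup G) ∣ p := by
      rw [← hZp]
      exact Subgroup.card_dvd_of_le inf_le_left
    rcases (Nat.dvd_prime hp).1 hdvd with hone | hall
    · -- `g` does not commute with any nontrivial element of `Z`
      have hbot : Z ⊓ Subgroup.centralizer {g} = ⊥ := Subgroup.card_eq_one.1 hone
      let φ : Z → Z := fun z => ⟨(z : G) * (g * (z : G)⁻¹ * g⁻¹), Z.mul_mem z.2
        (hZn.conj_mem _ (Z.inv_mem z.2) g)⟩
      have hφ : Function.Injective φ := by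
        intro a b hab
        have h1 : (a : G) * (g * (a : G)⁻¹ * g⁻¹) = b * (g * (b : G)⁻¹ * g⁻¹) :=
          congrArg Subtype.val hab
        have h2 : (b : G)⁻¹ * a ∈ Z ⊓ Subgroup.centralizer {g} := by
          refine ⟨Z.mul_mem (Z.inv_mem b.2) a.2, ?_⟩
          show (b : G)⁻¹ * a ∈ Subgroup.centralizer {g}
          rw [Subgroup.mem_centralizer_singleton_iff]
          have h3 : (b : G)⁻¹ * a = g * ((b : G)⁻¹ * a) * g⁻¹ := by
            have h4 : (b : G)⁻¹ * a = (g * (b : G)⁻¹ * g⁻¹) * (g * (a : G)⁻¹ * g⁻¹)⁻¹ := by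
              have h5 : (a : G) = b * (g * (b : G)⁻¹ * g⁻¹) * (g * (a : G)⁻¹ * g⁻¹)⁻¹ := by
                rw [← h1]; group
              calc (b : G)⁻¹ * a = (b : G)⁻¹ *
                  (b * (g * (b : G)⁻¹ * g⁻¹) * (g * (a : G)⁻¹ * g⁻¹)⁻¹) := by rw [← h5]
                _ = _ := by group
            calc (b : G)⁻¹ * a = (g * (b : G)⁻¹ * g⁻¹) * (g * (a : G)⁻¹ * g⁻¹)⁻¹ := h4
              _ = _ := by group
          have h6 : ((b : G)⁻¹ * a) * g = g * ((b : G)⁻¹ * a) := by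
            calc ((b : G)⁻¹ * a) * g = (g * ((b : G)⁻¹ * a) * g⁻¹) * g := by rw [← h3]
              _ = _ := by group
          first
            | exact h6
            | exact h6.symm
        rw [hbot, Subgroup.mem_bot] at h2
        exact Subtype.ext (inv_mul_eq_one.1 h2).symm
      have hsurj : Function.Surjective φ := Finite.surjective_of_injective hφ
      obtain ⟨z, hz⟩ := hsurj ⟨δ, hδ⟩
      have hz' : (z : G) * (g * (z : G)⁻¹ * g⁻¹) = δ := congrArg Subtype.val hz
      refine ⟨⟨s * z, hs.mul hZQ hZc z.2⟩, ?_, ?_⟩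
      · show ((s * z : G) : G ⧸ Z) = t.1
        rw [QuotientGroup.mk_mul, (QuotientGroup.eq_one_iff (z : G)).2 z.2, mul_one, hst]
      · apply Subtype.ext
        rw [hs1]
        show g * (s * z) * g⁻¹ = s * z
        have h1 : g * (s * z) * g⁻¹ = (g * s * g⁻¹) * (g * z * g⁻¹) := by group
        rw [h1, hgs, ← hz']
        group
    · -- `g` commutes with `Z`
      have hle : Z ≤ Subgroup.centralizer {g} := by
        have h1 : Z ⊓ Subgroup.centralizer {g} = Z :=
          Subgroup.eq_of_le_of_card_ge inf_le_left (by rw [hall, hZp])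
        rw [← h1]
        exact inf_le_right
      have hgz : ∀ z ∈ Z, g * z = z * g := by
        intro z hz
        have h1 := (Subgroup.mem_centralizer_singleton_iff).1 (hle hz)
        first
          | exact h1
          | exact h1.symm
      have hpow : ∀ m : ℕ, g ^ m * s * (g ^ m)⁻¹ = s * δ ^ m := by
        intro m
        induction m with
        | zero => simp
        | succ m ih =>
          have e1 : g ^ (m + 1) * s * (g ^ (m + 1))⁻¹ = g * (g ^ m * s * (g ^ m)⁻¹) * g⁻¹ := by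
            rw [pow_succ']; group
          have e2 : g * δ ^ m * g⁻¹ = δ ^ m := by
            rw [hgz _ (Z.pow_mem hδ m)]; group
          have e3 : g * (s * δ ^ m) * g⁻¹ = (g * s * g⁻¹) * (g * δ ^ m * g⁻¹) := by group
          rw [e1, ih, e3, hgs, e2, mul_assoc, ← pow_succ']
      have hgm : g ^ Q.index ∈ Q := Q.pow_index_mem g
      have h1 := hpow Q.index
      have h2 : δ ^ Q.index = 1 := by
        have h3 : ⁅s, g ^ Q.index⁆ ∈ Z := by
          have h4 : ⁅s, g ^ Q.index⁆ = s * (s * δ ^ Q.index)⁻¹ := by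
            rw [← h1, commutatorElement_def]; group
          rw [h4]
          have h5 : s * (s * δ ^ Q.index)⁻¹ = s * (δ ^ Q.index)⁻¹ * s⁻¹ := by group
          rw [h5]
          exact hZn.conj_mem _ (Z.inv_mem (Z.pow_mem hδ _)) s
        have h6 := hs.2.2 _ hgm h3
        have h7 : s * g ^ Q.index = g ^ Q.index * s := commutatorElement_eq_one_iff_mul_comm.1 h6
        rw [← h7] at h1
        have h8 : s = s * δ ^ Q.index := by
          rw [← h1]; group
        exact (mul_eq_left.1 h8.symm)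
      have h3 : δ ^ p = 1 := by
        have := pow_card_eq_one' (x := (⟨δ, hδ⟩ : Z))
        rw [hZp] at this
        exact congrArg Subtype.val this
      have h4 : δ = 1 := by
        have h5 : orderOf δ ∣ 1 := by
          rw [← (Nat.Prime.coprime_iff_not_dvd hp).2 hQi]
          exact Nat.dvd_gcd (orderOf_dvd_of_pow_eq_one h3) (orderOf_dvd_of_pow_eq_one h2)
        exact orderOf_eq_one_iff.1 (Nat.dvd_one.1 h5)
      refine ⟨⟨s, hs⟩, hst, ?_⟩
      apply Subtype.ext
      rw [hs1]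
      show g * s * g⁻¹ = s
      rw [hgs, h4, mul_one]
  have hfin1 : ∀ g : G, Nat.card (fixedBy X0 g) ≤ Nat.card (fixedBy X1 g) := by
    intro g
    choose F hF1 hF2 using fun t : fixedBy X0 g => hlift g t.1 t.2
    refine Nat.card_le_card_of_injective (fun t => (⟨F t, hF2 t⟩ : fixedBy X1 g)) ?_
    intro a b hab
    have h1 : F a = F b := congrArg Subtype.val hab
    apply Subtype.ext
    apply Subtype.ext
    rw [← hF1 a, ← hF1 b, h1]
  have hfin2 : ∀ g ∈ Q, p * Nat.card (fixedBy X0 g) ≤ Nat.card (fixedBy X1 g) := by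
    intro g hg
    choose F hF1 hF2 using fun t : fixedBy X0 g => hlift g t.1 t.2
    have hmem : ∀ (z : Z) (t : fixedBy X0 g),
        (⟨(F t).1 * z, (F t).2.mul hZQ hZc z.2⟩ : X1) ∈ fixedBy X1 g := by
      intro z t
      apply Subtype.ext
      rw [hs1]
      show g * ((F t).1 * z) * g⁻¹ = (F t).1 * z
      have h1 : g * (F t).1 * g⁻¹ = (F t).1 := congrArg Subtype.val (hF2 t)
      have h2 : g * (z : G) * g⁻¹ = z := by
        rw [← hZc z z.2 g hg]; group
      have h3 : g * ((F t).1 * z) * g⁻¹ = (g * (F t).1 * g⁻¹) * (g * z * g⁻¹) := by group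
      rw [h3, h1, h2]
    rw [← hZp, ← Nat.card_prod]
    refine Nat.card_le_card_of_injective
      (fun q : Z × fixedBy X0 g => (⟨_, hmem q.1 q.2⟩ : fixedBy X1 g)) ?_
    rintro ⟨z, t⟩ ⟨z', t'⟩ hab
    have h1 : (F t).1 * (z : G) = (F t').1 * z' :=
      congrArg (fun a : fixedBy X1 g => a.1.1) hab
    have h2 : t = t' := by
      apply Subtype.ext
      apply Subtype.ext
      rw [← hF1 t, ← hF1 t']
      have h3 := congrArg (fun a : G => (a : G ⧸ Z)) h1
      simp only [QuotientGroup.mk_mul] at h3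
      rw [(QuotientGroup.eq_one_iff (z : G)).2 z.2, (QuotientGroup.eq_one_iff (z' : G)).2 z'.2,
        mul_one, mul_one] at h3
      exact h3
    subst h2
    have h3 : (z : G) = z' := mul_left_cancel h1
    rw [Subtype.ext h3]
  have hmain := burnside_diff (X1 := X1) (X0 := X0) Q p hp.one_lt.le hfin1 hfin2
  -- number of `Q`-orbits
  have he : p - 1 ≤ Nat.card (Quotient (orbitRel Q X0)) := by
    have hnd : ∀ j : Fin (p - 1), ¬ p ∣ (j : ℕ) + 1 := by
      intro j h
      have := Nat.le_of_dvd (by omega) h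
      have := j.2
      omega
    have h0 : Nat.card (Fin (p - 1)) = p - 1 := by simp
    rw [← h0]
    refine Nat.card_le_card_of_injective (fun j : Fin (p - 1) =>
      (Quotient.mk (orbitRel Q X0) ⟨((x ^ ((j : ℕ) + 1) : G) : G ⧸ Z),
        ⟨x ^ ((j : ℕ) + 1), hxG.pow hp hQ (hnd j), rfl⟩⟩)) ?_
    intro i j hij
    have h1 := Quotient.exact hij
    obtain ⟨q, hq⟩ := (orbitRel_apply.1 h1)
    have h2 := congrArg Subtype.val hq
    have h3 : ((q : G) : G ⧸ Z) * ((x : G ⧸ Z) ^ ((j : ℕ) + 1)) * ((q : G) : G ⧸ Z)⁻¹ =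
        (x : G ⧸ Z) ^ ((i : ℕ) + 1) := h2
    obtain ⟨e, hxe⟩ := hQ ⟨x, hxQ⟩
    have hxe' : (x : G ⧸ Z) ^ p ^ e = 1 := by
      have : x ^ p ^ e = 1 := congrArg Subtype.val hxe
      rw [← QuotientGroup.mk_pow, this, QuotientGroup.mk_one]
    obtain ⟨f, hqf⟩ := hQ q
    have hqf' : ((q : G) : G ⧸ Z) ^ p ^ f = 1 := by
      have : (q : G) ^ p ^ f = 1 := congrArg Subtype.val hqf
      rw [← QuotientGroup.mk_pow, this, QuotientGroup.mk_one]
    have hx1 : (x : G ⧸ Z) ≠ 1 := fun h => hxZ ((QuotientGroup.eq_one_iff x).1 h)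
    have h4 := pow_conj hp hxe' hx1 hqf' (hnd j) h3
    apply Fin.ext
    have h5 : ((i : ℕ) + 1) % p = ((j : ℕ) + 1) % p := h4
    rw [Nat.mod_eq_of_lt (by have := i.2; omega), Nat.mod_eq_of_lt (by have := j.2; omega)] at h5
    omega
  -- the classes
  let φ1 : X1 → ConjClasses G := fun t => ConjClasses.mk t.1
  let φ0 : X0 → ConjClasses (G ⧸ Z) := fun t => ConjClasses.mk t.1
  have hφ1 : ∀ a b : X1, φ1 a = φ1 b ↔ ∃ g : G, g • a = b := by
    intro a b
    show ConjClasses.mk a.1 = ConjClasses.mk b.1 ↔ _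
    rw [ConjClasses.mk_eq_mk_iff_isConj, isConj_iff]
    constructor
    · rintro ⟨c, hc⟩
      exact ⟨c, Subtype.ext hc⟩
    · rintro ⟨c, hc⟩
      exact ⟨c, congrArg Subtype.val hc⟩
  have hφ0 : ∀ a b : X0, φ0 a = φ0 b ↔ ∃ g : G, g • a = b := by
    intro a b
    show ConjClasses.mk a.1 = ConjClasses.mk b.1 ↔ _
    rw [ConjClasses.mk_eq_mk_iff_isConj, isConj_iff]
    constructor
    · rintro ⟨c, hc⟩
      obtain ⟨c, rfl⟩ := QuotientGroup.mk_surjective c
      exact ⟨c, Subtype.ext hc⟩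
    · rintro ⟨c, hc⟩
      exact ⟨(c : G ⧸ Z), congrArg Subtype.val hc⟩
  rw [card_orbits φ1 hφ1, card_orbits φ0 hφ0] at hmain
  refine ⟨Set.range φ0, ?_, ?_⟩
  · rintro _ ⟨t, rfl⟩
    obtain ⟨s, hs, hst⟩ := t.2
    exact ⟨s, hs.1, hs.2.1, by show ConjClasses.mk t.1 = _; rw [hst]⟩
  · have hset : {C | ConjClasses.map (QuotientGroup.mk' Z) C ∈ Set.range φ0} = Set.range φ1 := by
      ext C
      constructor
      · rintro ⟨t, ht⟩
        obtain ⟨r, rfl⟩ := ConjClasses.mk_surjective C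
        obtain ⟨s, hs, hst⟩ := t.2
        have h1 : ConjClasses.mk (s : G ⧸ Z) = ConjClasses.mk (r : G ⧸ Z) := by
          rw [hst]; exact ht
        rw [ConjClasses.mk_eq_mk_iff_isConj, isConj_iff] at h1
        obtain ⟨c, hc⟩ := h1
        obtain ⟨c, rfl⟩ := QuotientGroup.mk_surjective c
        have h2 : (c * s * c⁻¹)⁻¹ * r ∈ Z := by
          rw [← QuotientGroup.eq]
          exact hc
        have h3 : Good Q Z r := by
          have := (hs.conj hQn c).mul hZQ hZc h2
          rwa [mul_inv_cancel_left] at this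
        exact ⟨⟨r, h3⟩, rfl⟩
      · rintro ⟨t, rfl⟩
        exact ⟨⟨(t.1 : G ⧸ Z), t.1, t.2, rfl⟩, rfl⟩
    rw [hset]
    calc (p - 1) ^ 2 = (p - 1) * (p - 1) := sq _
      _ ≤ (p - 1) * Nat.card (Quotient (orbitRel Q X0)) := Nat.mul_le_mul_left _ he
      _ ≤ _ := hmain

end main

end Helper36.KG
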